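import Mathlib
import Pool.Agent.MP_79d3d7_an.Core

/-! # A law of large permanents for ergodic actions of `ℕ²`

For commuting measure preserving maps `S = T^(1,0)` and `T = T^(0,1)` of a probability space such
that every measurable set invariant under both has measure `0` or `1`, and every measurable `f`
with `log f ∈ L^∞`, almost surely the permanental means of the matrices
`(f (S^i T^j ω))_{0 ≤ i, j < n}` converge to the scaling mean of `f` with respect to the
sigma-algebras of `S`-invariant and of `T`-invariant sets. -/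

open MeasureTheory Filter Topology Function
open scoped ENNReal

namespace Pool.Agent.Results.MP_79d3d7_an.LawOfLargePermanents

/-- The permanental mean `(per B / N!)^(1/N)` of an `N × N` matrix. -/
noncomputable def pmean {N : ℕ} (B : Matrix (Fin N) (Fin N) ℝ) : ℝ :=
  (B.permanent / (N.factorial : ℝ)) ^ ((1 : ℝ) / N)

/-- The geometric mean `exp ∫ log φ dμ`. -/
noncomputable def gm {Ω : Type*} [MeasurableSpace Ω] (μ : Measure Ω) (φ : Ω → ℝ) : ℝ :=
  Real.exp (∫ ω, Real.log (φ ω) ∂μ)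

/-- The class `G_i`: positive functions measurable for the sub-sigma-algebra `m`, with integrable
logarithm. -/
def scalings {Ω : Type*} (m : MeasurableSpace Ω) [MeasurableSpace Ω] (μ : Measure Ω) :
    Set (Ω → ℝ) :=
  {φ | Measurable[m] φ ∧ (∀ ω, 0 < φ ω) ∧ Integrable (fun ω => Real.log (φ ω)) μ}

/-- The scaling mean
`inf_{g₁ ∈ G₁, g₂ ∈ G₂} (gm g₁ · gm g₂)⁻¹ ∫ g₁ f g₂ dμ`, as an element of `[0, ∞]`. -/
noncomputable def smean {Ω : Type*} (m₁ m₂ : MeasurableSpace Ω) [MeasurableSpace Ω]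
    (μ : Measure Ω) (f : Ω → ℝ) : ℝ≥0∞ :=
  ⨅ g₁ ∈ scalings m₁ μ, ⨅ g₂ ∈ scalings m₂ μ,
    (∫⁻ ω, ENNReal.ofReal (g₁ ω * f ω * g₂ ω) ∂μ) / ENNReal.ofReal (gm μ g₁ * gm μ g₂)

section aux

open Pool.Agent.MP_79d3d7_an

variable {Ω : Type*} [MeasurableSpace Ω] {μ : Measure Ω}

lemma measurable_inv {S : Ω → Ω} {g : Ω → ℝ} (hg : Measurable g) (hinv : ∀ ω, g (S ω) = g ω) :
    Measurable[MeasurableSpace.invariants S] g := by
  rw [MeasurableSpace.measurable_invariants_dom]
  refine ⟨hg, fun s _ => ?_⟩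
  ext ω
  simp [hinv]

lemma adm_mem [IsProbabilityMeasure μ] {S : Ω → Ω} {g : Ω → ℝ} (hg : Adm μ S g) :
    g ∈ scalings (MeasurableSpace.invariants S) μ := by
  obtain ⟨C, hC0, hC⟩ := log_bdd_of_adm hg
  exact ⟨measurable_inv hg.meas hg.inv, adm_pos hg, integrable_bdd hg.meas.log hC⟩

lemma smean_le [IsProbabilityMeasure μ] {S T : Ω → Ω} {f : Ω → ℝ} (hf : Measurable f) {Λ : ℝ}
    (hf1 : ∀ ω, Real.exp (-Λ) ≤ f ω) (hf2 : ∀ ω, f ω ≤ Real.exp Λ) :
    smean (MeasurableSpace.invariants S) (MeasurableSpace.invariants T) μ f ≤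
      ENNReal.ofReal (bVal μ S T f) := by
  have hfpos : ∀ ω, 0 < f ω := fun ω => lt_of_lt_of_le (Real.exp_pos _) (hf1 ω)
  have h1 : ∀ g₁ g₂ : Ω → ℝ, Adm μ S g₁ → Adm μ T g₂ →
      smean (MeasurableSpace.invariants S) (MeasurableSpace.invariants T) μ f ≤
      ENNReal.ofReal (∫ ω, g₁ ω * f ω * g₂ ω ∂μ) := by
    intro g₁ g₂ h₁ h₂
    have hle : smean (MeasurableSpace.invariants S) (MeasurableSpace.invariants T) μ f ≤
      (∫⁻ ω, ENNReal.ofReal (g₁ ω * f ω * g₂ ω) ∂μ) / ENNReal.ofReal (gm μ g₁ * gm μ g₂) := by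
      unfold smean
      exact (iInf₂_le g₁ (adm_mem h₁)).trans (iInf₂_le g₂ (adm_mem h₂))
    refine hle.trans (le_of_eq ?_)
    have hgm : gm μ g₁ * gm μ g₂ = 1 := by
      unfold gm
      rw [h₁.norm, h₂.norm]; simp
    rw [hgm, ENNReal.ofReal_one, div_one]
    obtain ⟨m₁, M₁, hm₁, hmM₁⟩ := h₁.bd
    obtain ⟨m₂, M₂, hm₂, hmM₂⟩ := h₂.bd
    rw [ofReal_integral_eq_lintegral_ofReal]
    · apply integrable_bdd (C := |M₁| * Real.exp Λ * |M₂|) ((h₁.meas.mul hf).mul h₂.meas)
      intro ω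
      simp only [Pi.mul_apply]
      rw [abs_mul, abs_mul, abs_of_pos (adm_pos h₁ ω), abs_of_pos (adm_pos h₂ ω),
        abs_of_pos (hfpos ω)]
      exact mul_le_mul (mul_le_mul ((hmM₁ ω).2.trans (le_abs_self _)) (hf2 ω) (hfpos ω).le
        (abs_nonneg _)) ((hmM₂ ω).2.trans (le_abs_self _)) (adm_pos h₂ ω).le (by positivity)
    · exact ae_of_all _ fun ω => mul_nonneg (mul_nonneg (adm_pos h₁ ω).le (hfpos ω).le)
        (adm_pos h₂ ω).le
  have h2 : ∀ k : ℕ, smean (MeasurableSpace.invariants S) (MeasurableSpace.invariants T) μ f ≤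
      ENNReal.ofReal (bVal μ S T f + 1 / ((k : ℝ) + 1)) := by
    intro k
    have hnonempty : {x | ∃ g₁ g₂ : Ω → ℝ, Adm μ S g₁ ∧ Adm μ T g₂ ∧
        x = ∫ ω, g₁ ω * f ω * g₂ ω ∂μ}.Nonempty := ⟨_, _, _, adm_one S, adm_one T, rfl⟩
    have hk : (0 : ℝ) < 1 / ((k : ℝ) + 1) := by positivity
    obtain ⟨x, ⟨a, b, ha, hb, rfl⟩, hx⟩ := exists_lt_of_csInf_lt hnonempty
      (show bVal μ S T f < bVal μ S T f + 1 / ((k : ℝ) + 1) by linarith)
    exact (h1 a b ha hb).trans (ENNReal.ofReal_le_ofReal hx.le)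
  have h3 : Tendsto (fun k : ℕ => ENNReal.ofReal (bVal μ S T f + 1 / ((k : ℝ) + 1))) atTop
      (𝓝 (ENNReal.ofReal (bVal μ S T f))) := by
    apply (ENNReal.continuous_ofReal.tendsto _).comp
    have := (tendsto_one_div_add_atTop_nhds_zero_nat (𝕜 := ℝ)).const_add (bVal μ S T f)
    simpa using this
  exact ge_of_tendsto' h3 h2

/-- truncated logarithm -/
noncomputable def trunc (a b : ℕ) (x : ℝ) : ℝ := max (-(a : ℝ)) (min x b)

lemma trunc_abs (a b : ℕ) (x : ℝ) : |trunc a b x| ≤ (a : ℝ) + b := by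
  unfold trunc
  have ha : (0 : ℝ) ≤ a := Nat.cast_nonneg a
  have hb : (0 : ℝ) ≤ b := Nat.cast_nonneg b
  rw [abs_le]
  constructor
  · exact le_trans (by linarith) (le_max_left _ _)
  · apply max_le
    · linarith
    · exact (min_le_right _ _).trans (by linarith)

lemma measurable_trunc (a b : ℕ) : Measurable (trunc a b) :=
  measurable_const.max (measurable_id.min measurable_const)

lemma adm_trunc [IsProbabilityMeasure μ] {S : Ω → Ω} {u : Ω → ℝ} (hu : Measurable u)
    (hinv : ∀ ω, u (S ω) = u ω) (a b : ℕ) :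
    Adm μ S (fun ω => Real.exp (trunc a b (u ω) - ∫ ω, trunc a b (u ω) ∂μ)) := by
  have hm : Measurable (fun ω => trunc a b (u ω)) := (measurable_trunc a b).comp hu
  have hi := integrable_bdd (μ := μ) hm (fun ω => trunc_abs a b (u ω))
  refine ⟨?_, ?_, ?_, ?_⟩
  · exact Real.measurable_exp.comp (hm.sub_const _)
  · intro ω
    simp only [hinv]
  · refine ⟨Real.exp (-((a : ℝ) + b) - ∫ ω, trunc a b (u ω) ∂μ),
      Real.exp (((a : ℝ) + b) - ∫ ω, trunc a b (u ω) ∂μ), Real.exp_pos _, fun ω => ?_⟩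
    have := abs_le.mp (trunc_abs a b (u ω))
    constructor
    · apply Real.exp_le_exp.mpr; linarith [this.1]
    · apply Real.exp_le_exp.mpr; linarith [this.2]
  · simp only [Real.log_exp]
    rw [integral_sub hi (integrable_const _)]
    simp

lemma exp_trunc_le (a b : ℕ) (x : ℝ) :
    Real.exp (trunc a b x) ≤ min (Real.exp x) (Real.exp b) + Real.exp (-(a : ℝ)) := by
  unfold trunc
  rcases max_choice (-(a : ℝ)) (min x b) with h | h
  · rw [h]
    have : 0 ≤ min (Real.exp x) (Real.exp b) := le_min (Real.exp_pos _).le (Real.exp_pos _).le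
    linarith
  · rw [h]
    have h1 : Real.exp (min x b) ≤ min (Real.exp x) (Real.exp b) :=
      le_min (Real.exp_le_exp.mpr (min_le_left _ _)) (Real.exp_le_exp.mpr (min_le_right _ _))
    have := Real.exp_pos (-(a : ℝ))
    linarith

lemma le_smean [IsProbabilityMeasure μ] {S T : Ω → Ω} {f : Ω → ℝ} (hf : Measurable f) {Λ : ℝ}
    (hf1 : ∀ ω, Real.exp (-Λ) ≤ f ω) (hf2 : ∀ ω, f ω ≤ Real.exp Λ) :
    ENNReal.ofReal (bVal μ S T f) ≤
      smean (MeasurableSpace.invariants S) (MeasurableSpace.invariants T) μ f := by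
  have hfpos : ∀ ω, 0 < f ω := fun ω => lt_of_lt_of_le (Real.exp_pos _) (hf1 ω)
  have hs0 : 0 ≤ bVal μ S T f := bVal_nonneg fun ω => (hfpos ω).le
  unfold smean
  refine le_iInf₂ fun g₁ h₁ => le_iInf₂ fun g₂ h₂ => ?_
  obtain ⟨hm₁, hp₁, hi₁⟩ := h₁
  obtain ⟨hm₂, hp₂, hi₂⟩ := h₂
  have hgmpos : 0 < gm μ g₁ * gm μ g₂ := mul_pos (Real.exp_pos _) (Real.exp_pos _)
  have hM₁ : Measurable g₁ := (MeasurableSpace.measurable_invariants_dom.mp hm₁).1
  have hM₂ : Measurable g₂ := (MeasurableSpace.measurable_invariants_dom.mp hm₂).1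
  have hinv₁ : ∀ ω, g₁ (S ω) = g₁ ω := fun ω =>
    congrFun (MeasurableSpace.comp_eq_of_measurable_invariants hm₁) ω
  have hinv₂ : ∀ ω, g₂ (T ω) = g₂ ω := fun ω =>
    congrFun (MeasurableSpace.comp_eq_of_measurable_invariants hm₂) ω
  have hgfg0 : ∀ ω, 0 ≤ g₁ ω * f ω * g₂ ω := fun ω =>
    mul_nonneg (mul_nonneg (hp₁ ω).le (hfpos ω).le) (hp₂ ω).le
  by_cases htop : (∫⁻ ω, ENNReal.ofReal (g₁ ω * f ω * g₂ ω) ∂μ) = ⊤
  · rw [htop, ENNReal.top_div_of_ne_top ENNReal.ofReal_ne_top]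
    exact le_top
  · have hmeas : Measurable (fun ω => g₁ ω * f ω * g₂ ω) := (hM₁.mul hf).mul hM₂
    have hint : Integrable (fun ω => g₁ ω * f ω * g₂ ω) μ := by
      refine ⟨hmeas.aestronglyMeasurable, ?_⟩
      rw [hasFiniteIntegral_iff_ofReal (ae_of_all _ hgfg0)]
      exact lt_top_iff_ne_top.mpr htop
    rw [← ofReal_integral_eq_lintegral_ofReal hint (ae_of_all _ hgfg0)]
    rw [ENNReal.le_div_iff_mul_le (Or.inl (by simpa using hgmpos)) (Or.inl ENNReal.ofReal_ne_top)]
    rw [← ENNReal.ofReal_mul hs0]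
    apply ENNReal.ofReal_le_ofReal
    set I := ∫ ω, g₁ ω * f ω * g₂ ω ∂μ with hI
    set u₁ : Ω → ℝ := fun ω => Real.log (g₁ ω) with hu₁
    set u₂ : Ω → ℝ := fun ω => Real.log (g₂ ω) with hu₂
    have hu₁m : Measurable u₁ := hM₁.log
    have hu₂m : Measurable u₂ := hM₂.log
    have he₁ : ∀ ω, Real.exp (u₁ ω) = g₁ ω := fun ω => Real.exp_log (hp₁ ω)
    have he₂ : ∀ ω, Real.exp (u₂ ω) = g₂ ω := fun ω => Real.exp_log (hp₂ ω)
    -- step 1
    have step1 : ∀ a b : ℕ, bVal μ S T f *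
        Real.exp ((∫ ω, trunc a b (u₁ ω) ∂μ) + ∫ ω, trunc a b (u₂ ω) ∂μ) ≤
        I + Real.exp (-(a : ℝ)) * ((2 * Real.exp b + 1) * Real.exp Λ) := by
      intro a b
      set E₁ := ∫ ω, trunc a b (u₁ ω) ∂μ with hE₁
      set E₂ := ∫ ω, trunc a b (u₂ ω) ∂μ with hE₂
      have h3 := bVal_le (μ := μ) (S := S) (T := T) (f := f) (fun ω => (hfpos ω).le)
        (adm_trunc hu₁m (fun ω => by simp only [hu₁, hinv₁]) a b)
        (adm_trunc hu₂m (fun ω => by simp only [hu₂, hinv₂]) a b)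
      have h4 : ∫ ω, Real.exp (trunc a b (u₁ ω) - E₁) * f ω * Real.exp (trunc a b (u₂ ω) - E₂) ∂μ
          = Real.exp (-(E₁ + E₂)) *
            ∫ ω, Real.exp (trunc a b (u₁ ω)) * f ω * Real.exp (trunc a b (u₂ ω)) ∂μ := by
        rw [← integral_const_mul]
        apply integral_congr_ae
        refine ae_of_all _ fun ω => ?_
        simp only
        rw [Real.exp_sub, Real.exp_sub, Real.exp_neg, Real.exp_add]
        field_simp
      rw [← hE₁, ← hE₂] at h3
      rw [h4] at h3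
      have h5 : ∫ ω, Real.exp (trunc a b (u₁ ω)) * f ω * Real.exp (trunc a b (u₂ ω)) ∂μ ≤
          I + Real.exp (-(a : ℝ)) * ((2 * Real.exp b + 1) * Real.exp Λ) := by
        have h6 : I + Real.exp (-(a : ℝ)) * ((2 * Real.exp b + 1) * Real.exp Λ) =
            ∫ ω, (g₁ ω * f ω * g₂ ω +
              Real.exp (-(a : ℝ)) * ((2 * Real.exp b + 1) * Real.exp Λ)) ∂μ := by
          rw [integral_add hint (integrable_const _)]
          simp [hI]
        rw [h6]
        apply integral_mono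
        · apply integrable_bdd (C := Real.exp ((a : ℝ) + b) * Real.exp Λ * Real.exp ((a : ℝ) + b))
          · exact ((Real.measurable_exp.comp ((measurable_trunc a b).comp hu₁m)).mul hf).mul
              (Real.measurable_exp.comp ((measurable_trunc a b).comp hu₂m))
          · intro ω
            rw [abs_mul, abs_mul, abs_of_pos (Real.exp_pos _), abs_of_pos (Real.exp_pos _),
              abs_of_pos (hfpos ω)]
            have t1 := (abs_le.mp (trunc_abs a b (u₁ ω))).2
            have t2 := (abs_le.mp (trunc_abs a b (u₂ ω))).2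
            exact mul_le_mul (mul_le_mul (Real.exp_le_exp.mpr t1) (hf2 ω) (hfpos ω).le
              (Real.exp_pos _).le) (Real.exp_le_exp.mpr t2) (Real.exp_pos _).le (by positivity)
        · exact hint.add (integrable_const _)
        · intro ω
          simp only
          have t1 := exp_trunc_le a b (u₁ ω)
          have t2 := exp_trunc_le a b (u₂ ω)
          rw [he₁] at t1
          rw [he₂] at t2
          set p₁ := min (g₁ ω) (Real.exp b) with hp₁'
          set p₂ := min (g₂ ω) (Real.exp b) with hp₂'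
          have hp₁0 : 0 ≤ p₁ := le_min (hp₁ ω).le (Real.exp_pos _).le
          have hp₂0 : 0 ≤ p₂ := le_min (hp₂ ω).le (Real.exp_pos _).le
          have hp₁g : p₁ ≤ g₁ ω := min_le_left _ _
          have hp₂g : p₂ ≤ g₂ ω := min_le_left _ _
          have hp₁b : p₁ ≤ Real.exp b := min_le_right _ _
          have hp₂b : p₂ ≤ Real.exp b := min_le_right _ _
          set e := Real.exp (-(a : ℝ)) with he
          have he0 : 0 < e := Real.exp_pos _
          have he1 : e ≤ 1 := by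
            rw [he, ← Real.exp_zero]
            apply Real.exp_le_exp.mpr
            have : (0 : ℝ) ≤ a := Nat.cast_nonneg a
            linarith
          have hprod : Real.exp (trunc a b (u₁ ω)) * Real.exp (trunc a b (u₂ ω)) ≤
              g₁ ω * g₂ ω + e * (2 * Real.exp b + 1) := by
            calc Real.exp (trunc a b (u₁ ω)) * Real.exp (trunc a b (u₂ ω))
                ≤ (p₁ + e) * (p₂ + e) := mul_le_mul t1 t2 (Real.exp_pos _).le (by positivity)
              _ = p₁ * p₂ + e * (p₁ + p₂ + e) := by ring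
              _ ≤ g₁ ω * g₂ ω + e * (2 * Real.exp b + 1) := by
                apply add_le_add
                · exact mul_le_mul hp₁g hp₂g hp₂0 (hp₁ ω).le
                · apply mul_le_mul_of_nonneg_left _ he0.le
                  linarith
          calc Real.exp (trunc a b (u₁ ω)) * f ω * Real.exp (trunc a b (u₂ ω))
              = (Real.exp (trunc a b (u₁ ω)) * Real.exp (trunc a b (u₂ ω))) * f ω := by ring
            _ ≤ (g₁ ω * g₂ ω + e * (2 * Real.exp b + 1)) * f ω :=
                mul_le_mul_of_nonneg_right hprod (hfpos ω).le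
            _ = g₁ ω * f ω * g₂ ω + e * ((2 * Real.exp b + 1) * f ω) := by ring
            _ ≤ g₁ ω * f ω * g₂ ω + e * ((2 * Real.exp b + 1) * Real.exp Λ) := by
                gcongr
                exact hf2 ω
      have h7 : Real.exp (-(E₁ + E₂)) * Real.exp (E₁ + E₂) = 1 := by
        rw [← Real.exp_add]; simp
      calc bVal μ S T f * Real.exp (E₁ + E₂)
          ≤ (Real.exp (-(E₁ + E₂)) *
            ∫ ω, Real.exp (trunc a b (u₁ ω)) * f ω * Real.exp (trunc a b (u₂ ω)) ∂μ) *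
              Real.exp (E₁ + E₂) := mul_le_mul_of_nonneg_right h3 (Real.exp_pos _).le
        _ = (Real.exp (-(E₁ + E₂)) * Real.exp (E₁ + E₂)) *
            ∫ ω, Real.exp (trunc a b (u₁ ω)) * f ω * Real.exp (trunc a b (u₂ ω)) ∂μ := by ring
        _ ≤ _ := by rw [h7, one_mul]; exact h5
    -- diagonal choice a = 2 b
    have hlimtr : ∀ u : Ω → ℝ, Measurable u → Integrable u μ →
        Tendsto (fun b : ℕ => ∫ ω, trunc (2 * b) b (u ω) ∂μ) atTop (𝓝 (∫ ω, u ω ∂μ)) := by
      intro u hu hui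
      apply tendsto_integral_of_dominated_convergence (fun ω => |u ω|)
      · intro b
        exact ((measurable_trunc _ _).comp hu).aestronglyMeasurable
      · exact hui.abs
      · intro b
        refine ae_of_all _ fun ω => ?_
        rw [Real.norm_eq_abs]
        unfold trunc
        have hb : (0 : ℝ) ≤ b := Nat.cast_nonneg b
        have h3 := neg_abs_le (u ω)
        have h4 := le_abs_self (u ω)
        have h5 := abs_nonneg (u ω)
        rw [abs_le]
        constructor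
        · refine le_trans ?_ (le_max_right _ _)
          exact le_min h3 (by linarith)
        · apply max_le
          · push_cast; linarith
          · exact (min_le_left _ _).trans h4
      · refine ae_of_all _ fun ω => ?_
        apply tendsto_const_nhds.congr'
        obtain ⟨N, hN⟩ := exists_nat_gt (|u ω|)
        filter_upwards [eventually_ge_atTop N] with b hb
        have hb' : (N : ℝ) ≤ b := by exact_mod_cast hb
        have h3 := neg_abs_le (u ω)
        have h4 := le_abs_self (u ω)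
        have h5 := abs_nonneg (u ω)
        unfold trunc
        rw [min_eq_left (by linarith), max_eq_right (by push_cast; linarith)]
    have hl1 := hlimtr u₁ hu₁m hi₁
    have hl2 := hlimtr u₂ hu₂m hi₂
    have hL : Tendsto (fun b : ℕ => bVal μ S T f *
        Real.exp ((∫ ω, trunc (2 * b) b (u₁ ω) ∂μ) + ∫ ω, trunc (2 * b) b (u₂ ω) ∂μ)) atTop
        (𝓝 (bVal μ S T f * Real.exp ((∫ ω, u₁ ω ∂μ) + ∫ ω, u₂ ω ∂μ))) :=
      ((Real.continuous_exp.tendsto _).comp (hl1.add hl2)).const_mul _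
    have hR : Tendsto (fun b : ℕ => I + Real.exp (-((2 * b : ℕ) : ℝ)) *
        ((2 * Real.exp b + 1) * Real.exp Λ)) atTop (𝓝 I) := by
      have h3 : ∀ b : ℕ, Real.exp (-((2 * b : ℕ) : ℝ)) * ((2 * Real.exp b + 1) * Real.exp Λ) =
          (2 * Real.exp (-(b : ℝ)) + Real.exp (-(b : ℝ)) * Real.exp (-(b : ℝ))) * Real.exp Λ := by
        intro b
        have e1 : Real.exp (-((2 * b : ℕ) : ℝ)) = Real.exp (-(b : ℝ)) * Real.exp (-(b : ℝ)) := by
          rw [← Real.exp_add]; congr 1; push_cast; ring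
        have e2 : Real.exp (-(b : ℝ)) * Real.exp (b : ℝ) = 1 := by
          rw [← Real.exp_add]; simp
        rw [e1]
        calc Real.exp (-(b : ℝ)) * Real.exp (-(b : ℝ)) * ((2 * Real.exp b + 1) * Real.exp Λ)
            = (2 * Real.exp (-(b : ℝ)) * (Real.exp (-(b : ℝ)) * Real.exp (b : ℝ)) +
              Real.exp (-(b : ℝ)) * Real.exp (-(b : ℝ))) * Real.exp Λ := by ring
          _ = _ := by rw [e2, mul_one]
      have h4 : Tendsto (fun b : ℕ => Real.exp (-(b : ℝ))) atTop (𝓝 0) :=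
        Real.tendsto_exp_neg_atTop_nhds_zero.comp tendsto_natCast_atTop_atTop
      have h5 := ((((h4.const_mul 2).add (h4.mul h4)).mul_const (Real.exp Λ)).const_add I)
      simp only [mul_zero, add_zero, zero_mul] at h5
      refine h5.congr fun b => ?_
      rw [h3]
    have hfin := le_of_tendsto_of_tendsto' hL hR (fun b => step1 (2 * b) b)
    have hgm : gm μ g₁ * gm μ g₂ = Real.exp ((∫ ω, u₁ ω ∂μ) + ∫ ω, u₂ ω ∂μ) := by
      unfold gm
      rw [Real.exp_add]
    rw [hgm]
    exact hfin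

/-- the proof of the main result -/
theorem main_aux {Ω : Type*} [MeasurableSpace Ω] (μ : Measure Ω) [IsProbabilityMeasure μ]
    (S T : Ω → Ω) (hS : MeasurePreserving S μ μ) (hT : MeasurePreserving T μ μ)
    (hST : ∀ ω, S (T ω) = T (S ω))
    (herg : ∀ A : Set Ω, MeasurableSet A → S ⁻¹' A = A → T ⁻¹' A = A → μ A = 0 ∨ μ A = 1)
    (f : Ω → ℝ) (hf : Measurable f) (hpos : ∀ᵐ ω ∂μ, 0 < f ω)
    (hlog : MemLp (fun ω => Real.log (f ω)) ⊤ μ) :
    smean (MeasurableSpace.invariants S) (MeasurableSpace.invariants T) μ f ≠ ⊤ ∧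
    ∀ᵐ ω ∂μ, Tendsto
      (fun n : ℕ => pmean (Matrix.of fun i j : Fin n => f (S^[(i : ℕ)] (T^[(j : ℕ)] ω))))
      atTop
      (𝓝 (smean (MeasurableSpace.invariants S) (MeasurableSpace.invariants T) μ f).toReal) := by
  -- essential bound
  obtain ⟨Λ, hΛ⟩ : ∃ Λ : ℝ, ∀ᵐ ω ∂μ, |Real.log (f ω)| ≤ Λ := by
    refine ⟨(eLpNormEssSup (fun ω => Real.log (f ω)) μ).toReal, ?_⟩
    have hfin : eLpNormEssSup (fun ω => Real.log (f ω)) μ ≠ ⊤ := by
      have := hlog.eLpNorm_ne_top
      rwa [eLpNorm_exponent_top] at this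
    filter_upwards [ae_le_eLpNormEssSup (f := fun ω => Real.log (f ω)) (μ := μ)] with ω hω
    have h1 := ENNReal.toReal_mono hfin hω
    simpa using h1
  have hΛ0 : 0 ≤ Λ := by
    obtain ⟨ω, hω⟩ := hΛ.exists
    exact (abs_nonneg _).trans hω
  -- the clamped function
  set f' : Ω → ℝ := fun ω => max (Real.exp (-Λ)) (min (f ω) (Real.exp Λ)) with hf'
  have hf'm : Measurable f' := measurable_const.max (hf.min measurable_const)
  have hf'1 : ∀ ω, Real.exp (-Λ) ≤ f' ω := fun ω => le_max_left _ _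
  have hf'2 : ∀ ω, f' ω ≤ Real.exp Λ := fun ω =>
    max_le (Real.exp_le_exp.mpr (by linarith)) (min_le_right _ _)
  have hff' : ∀ᵐ ω ∂μ, f' ω = f ω := by
    filter_upwards [hpos, hΛ] with ω h1 h2
    have h3 := abs_le.mp h2
    have h4 : f ω ≤ Real.exp Λ := by
      rw [← Real.exp_log h1]; exact Real.exp_le_exp.mpr h3.2
    have h5 : Real.exp (-Λ) ≤ f ω := by
      rw [← Real.exp_log h1]; exact Real.exp_le_exp.mpr h3.1
    simp only [hf']
    rw [min_eq_left h4, max_eq_right h5]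
  -- orbit version
  have horb : ∀ᵐ ω ∂μ, ∀ i j : ℕ, f' (S^[i] (T^[j] ω)) = f (S^[i] (T^[j] ω)) := by
    rw [ae_all_iff]
    intro i
    rw [ae_all_iff]
    intro j
    have hmp : MeasurePreserving (fun ω => S^[i] (T^[j] ω)) μ μ := (hS.iterate i).comp (hT.iterate j)
    exact hmp.quasiMeasurePreserving.ae hff'
  -- the scaling means agree
  have hsm : smean (MeasurableSpace.invariants S) (MeasurableSpace.invariants T) μ f =
      ENNReal.ofReal (bVal μ S T f') := by
    have h1 : smean (MeasurableSpace.invariants S) (MeasurableSpace.invariants T) μ f =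
        smean (MeasurableSpace.invariants S) (MeasurableSpace.invariants T) μ f' := by
      unfold smean
      have h2 : ∀ g₁ g₂ : Ω → ℝ, (∫⁻ ω, ENNReal.ofReal (g₁ ω * f ω * g₂ ω) ∂μ) =
          ∫⁻ ω, ENNReal.ofReal (g₁ ω * f' ω * g₂ ω) ∂μ := by
        intro g₁ g₂
        apply lintegral_congr_ae
        filter_upwards [hff'] with ω hω
        rw [hω]
      simp_rw [h2]
    rw [h1]
    exact le_antisymm (smean_le hf'm hf'1 hf'2) (le_smean hf'm hf'1 hf'2)
  have hb0 : 0 ≤ bVal μ S T f' := bVal_nonneg fun ω => (Real.exp_pos _).le.trans (hf'1 ω)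
  rw [hsm, ENNReal.toReal_ofReal hb0]
  refine ⟨ENNReal.ofReal_ne_top, ?_⟩
  filter_upwards [core hS hT hST herg hf'm hf'1 hf'2, horb] with ω hω horbω
  refine hω.congr fun n => ?_
  have h4 : (Matrix.of fun i j : Fin n => f (S^[(i : ℕ)] (T^[(j : ℕ)] ω))) =
      sample S T f' n ω := by
    ext i j
    simp only [Matrix.of_apply, sample]
    rw [horbω]
  rw [h4]
  rfl

end aux

/-- **Law of large permanents for ergodic `ℕ²`-actions.** -/
theorem result {Ω : Type*} [MeasurableSpace Ω] (μ : Measure Ω) [IsProbabilityMeasure μ]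
    (S T : Ω → Ω) (hS : MeasurePreserving S μ μ) (hT : MeasurePreserving T μ μ)
    (hST : ∀ ω, S (T ω) = T (S ω))
    (herg : ∀ A : Set Ω, MeasurableSet A → S ⁻¹' A = A → T ⁻¹' A = A → μ A = 0 ∨ μ A = 1)
    (f : Ω → ℝ) (hf : Measurable f) (hpos : ∀ᵐ ω ∂μ, 0 < f ω)
    (hlog : MemLp (fun ω => Real.log (f ω)) ⊤ μ) :
    smean (MeasurableSpace.invariants S) (MeasurableSpace.invariants T) μ f ≠ ⊤ ∧
    ∀ᵐ ω ∂μ, Tendsto
      (fun n : ℕ => pmean (Matrix.of fun i j : Fin n => f (S^[(i : ℕ)] (T^[(j : ℕ)] ω))))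
      atTop
      (𝓝 (smean (MeasurableSpace.invariants S) (MeasurableSpace.invariants T) μ f).toReal) :=
  main_aux μ S T hS hT hST herg f hf hpos hlog

end Pool.Agent.Results.MP_79d3d7_an.LawOfLargePermanents
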